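import Pool.Agent.N912.HL.H4
import Pool.Agent.W45.GA.Lat
import Pool.Agent.N912.MS.Stm
import Pool.Agent.H304R3.HK.LgB

/-!
# Project MS (helper912), MS13, part A: completely multiplicative functions on the Gaussian integers
and Halasz's theorem
-/

set_option autoImplicit false

namespace Pool.Agent.N80.MS

open Finset Filter Topology
open Pool.Agent.Y122.LT (al)
open Pool.Agent.W78.GA (Qd nm ball mem_ball nm_mul nm_cast one_le_nm nm_zero)
open Pool.Agent.N912.MS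
open Pool.Agent.N912.HL
open Pool.Agent.H304R3.HK (bb CS UH Lg ccf lg_bb)
open scoped ArithmeticFunction.vonMangoldt

theorem hD1 : (0 : ℤ) ^ 2 < 4 * 1 := by norm_num

theorem nm_eq (z : Gi) : (nm z : ℤ) = z.re ^ 2 + z.im ^ 2 := by
  rw [nm_cast hD1]
  ring

/-! ### Gaussian integers, two models -/

/-- the Gaussian integer -/
def tq (z : GaussianInt) : Gi := ⟨z.re, z.im⟩

theorem tq_mul (z w : GaussianInt) : tq (z * w) = tq z * tq w := by
  unfold tq
  apply QuadraticAlgebra.ext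
  · simp [Zsqrtd.re_mul]
  · simp [Zsqrtd.im_mul]

theorem tq_ne {z : GaussianInt} (hz : z ≠ 0) : tq z ≠ 0 := by
  intro h
  apply hz
  have h1 := congrArg QuadraticAlgebra.re h
  have h2 := congrArg QuadraticAlgebra.im h
  exact Zsqrtd.ext h1 h2

theorem f_one {f : Gi → ℝ} (hf : CMR f) : f 1 = 1 := by
  have hi : (⟨0, 1⟩ : Gi) ≠ 0 := by
    intro h
    have h2 := congrArg QuadraticAlgebra.im h
    simp at h2
  have h1 : (⟨0, 1⟩ : Gi) * ⟨0, 1⟩ = ⟨-1, 0⟩ := by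
    apply QuadraticAlgebra.ext
    · simp
    · simp
  have h2 : (⟨-1, 0⟩ : Gi) * ⟨-1, 0⟩ = 1 := by
    apply QuadraticAlgebra.ext
    · simp
      rfl
    · simp
      rfl
  have h3 : (⟨-1, 0⟩ : Gi) ≠ 0 := by
    intro h
    have h2 := congrArg QuadraticAlgebra.re h
    simp at h2
  have e1 := hf.mul _ _ hi hi
  rw [h1, hf.unit] at e1
  have e2 := hf.mul _ _ h3 h3
  rw [h2, e1] at e2
  linarith

open scoped Classical in
/-- the function as a homomorphism -/
noncomputable def hh (f : Gi → ℝ) (hf : CMR f) : GaussianInt →* ℂ where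
  toFun z := if z = 0 then 0 else (f (tq z) : ℂ)
  map_one' := by
    have h : tq 1 = 1 := by
      unfold tq
      apply QuadraticAlgebra.ext <;> rfl
    rw [if_neg one_ne_zero, h, f_one hf, Complex.ofReal_one]
  map_mul' := by
    intro z w
    by_cases hz : z = 0
    · simp [hz]
    by_cases hw : w = 0
    · simp [hw]
    rw [if_neg hz, if_neg hw, if_neg (mul_ne_zero hz hw), tq_mul, hf.mul _ _ (tq_ne hz) (tq_ne hw)]
    push_cast
    rfl

theorem hh_apply {f : Gi → ℝ} (hf : CMR f) {z : GaussianInt} (hz : z ≠ 0) :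
    hh f hf z = (f (tq z) : ℂ) := by
  show (if z = 0 then 0 else (f (tq z) : ℂ)) = _
  rw [if_neg hz]

theorem uh {f : Gi → ℝ} (hf : CMR f) : UH (hh f hf) where
  h0 := by
    show (if (0 : GaussianInt) = 0 then 0 else (f (tq 0) : ℂ)) = _
    rw [if_pos rfl]
  hb := by
    intro z
    by_cases hz : z = 0
    · subst hz
      show ‖(if (0 : GaussianInt) = 0 then (0 : ℂ) else (f (tq 0) : ℂ))‖ ≤ 1
      rw [if_pos rfl]
      simp
    · rw [hh_apply hf hz, Complex.norm_real]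
      exact hf.bd _
  hi := by
    have hz : (⟨0, 1⟩ : GaussianInt) ≠ 0 := by
      intro h
      have h2 := congrArg Zsqrtd.im h
      simp at h2
    rw [hh_apply hf hz]
    have : tq ⟨0, 1⟩ = (⟨0, 1⟩ : Gi) := rfl
    rw [this, hf.unit, Complex.ofReal_one]

/-- the constant function one -/
theorem cmr_one : CMR (fun _ => (1 : ℝ)) where
  mul := fun _ _ _ _ => by norm_num
  bd := fun _ => by norm_num
  unit := rfl

/-! ### Sums over norms -/

theorem mem_CS {n : ℕ} {p : ℤ × ℤ} : p ∈ CS n ↔ p.1 ^ 2 + p.2 ^ 2 = n := by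
  unfold CS
  rw [mem_filter, mem_product, mem_Icc, mem_Icc]
  refine ⟨fun h => h.2, fun h => ⟨⟨⟨?_, ?_⟩, ⟨?_, ?_⟩⟩, h⟩⟩ <;> nlinarith [sq_nonneg p.1, sq_nonneg p.2, sq_nonneg (p.1 - 1), sq_nonneg (p.1 + 1), sq_nonneg (p.2 - 1), sq_nonneg (p.2 + 1), sq_abs p.1]

theorem nm_mk {n : ℕ} {p : ℤ × ℤ} (h : p ∈ CS n) : nm (⟨p.1, p.2⟩ : Gi) = n := by
  have h1 := nm_eq (⟨p.1, p.2⟩ : Gi)
  rw [mem_CS] at h
  simp only at h1
  rw [h] at h1
  exact_mod_cast h1

theorem mk_mem (z : Gi) : (z.re, z.im) ∈ CS (nm z) := by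
  rw [mem_CS, nm_eq]

theorem sum_norm {M : Type} [AddCommMonoid M] (X : ℝ) (g : Gi → M) :
    ∑ z ∈ ball 0 1 X, g z = ∑ n ∈ Icc 1 ⌊X⌋₊, ∑ p ∈ CS n, g ⟨p.1, p.2⟩ := by
  classical
  have h1 : ∀ z ∈ ball 0 1 X, nm z ∈ Icc 1 ⌊X⌋₊ := by
    intro z hz
    rw [mem_ball hD1] at hz
    rw [mem_Icc]
    exact ⟨hz.1, Nat.le_floor hz.2⟩
  rw [← sum_fiberwise_of_maps_to h1]
  refine sum_congr rfl fun n hn => ?_
  rw [mem_Icc] at hn
  refine sum_nbij' (fun z => (z.re, z.im)) (fun p => ⟨p.1, p.2⟩) ?_ ?_ ?_ ?_ ?_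
  · intro z hz
    rw [mem_filter] at hz
    rw [← hz.2]
    exact mk_mem z
  · intro p hp
    have h2 := nm_mk hp
    rw [mem_filter, mem_ball hD1, h2]
    refine ⟨⟨hn.1, ?_⟩, rfl⟩
    have h3 : 0 < ⌊X⌋₊ := by omega
    have h4 : (0 : ℝ) ≤ X := (Nat.pos_of_floor_pos h3).le
    exact (Nat.cast_le.2 hn.2).trans (Nat.floor_le h4)
  · intro z _
    rfl
  · intro p _
    rfl
  · intro z _
    rfl

/-- the number of ideals of norm `n` -/
noncomputable def rN (n : ℕ) : ℝ := if n = 0 then 0 else ((CS n).card : ℝ) / 4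

theorem bb_eq {f : Gi → ℝ} (hf : CMR f) {n : ℕ} (hn : n ≠ 0) :
    bb (hh f hf) n = (((∑ p ∈ CS n, f ⟨p.1, p.2⟩) / 4 : ℝ) : ℂ) := by
  unfold bb
  have h1 : ∑ p ∈ CS n, hh f hf ⟨p.1, p.2⟩ = ∑ p ∈ CS n, (f ⟨p.1, p.2⟩ : ℂ) := by
    refine sum_congr rfl fun p hp => ?_
    rw [hh_apply hf]
    · rfl
    · intro h
      have h2 := congrArg Zsqrtd.re h
      have h3 := congrArg Zsqrtd.im h
      simp only [Zsqrtd.re_zero, Zsqrtd.im_zero] at h2 h3
      rw [mem_CS, h2, h3] at hp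
      apply hn
      have : ((0 : ℤ)) = n := by rw [← hp]; norm_num
      exact_mod_cast this.symm
  rw [h1]
  push_cast
  ring

theorem bb_one (n : ℕ) : bb (hh (fun _ => (1 : ℝ)) cmr_one) n = (rN n : ℂ) := by
  by_cases hn : n = 0
  · subst hn
    rw [(lg_bb _ (uh cmr_one)).b0]
    unfold rN
    simp
  · rw [bb_eq cmr_one hn]
    unfold rN
    rw [if_neg hn, sum_const, nsmul_eq_mul, mul_one]

theorem rN_nonneg (n : ℕ) : 0 ≤ rN n := by
  unfold rN
  split_ifs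
  · exact le_rfl
  · positivity

theorem bb_le {f : Gi → ℝ} (hf : CMR f) (n : ℕ) : ‖bb (hh f hf) n‖ ≤ rN n := by
  by_cases hn : n = 0
  · subst hn
    rw [(lg_bb _ (uh hf)).b0, norm_zero]
    exact rN_nonneg 0
  · rw [bb_eq hf hn, Complex.norm_real, Real.norm_eq_abs, abs_div]
    unfold rN
    rw [if_neg hn, abs_of_pos (by norm_num : (0 : ℝ) < 4)]
    refine div_le_div_of_nonneg_right ?_ (by norm_num)
    refine (abs_sum_le_sum_abs _ _).trans ?_
    refine (sum_le_sum fun p _ => hf.bd _).trans ?_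
    rw [sum_const, nsmul_eq_mul, mul_one]

/-- the sequences satisfy the hypotheses -/
theorem hs_f {f : Gi → ℝ} (hf : CMR f) :
    Hs rN (bb (hh f hf)) (fun n => (Λ n : ℂ) * ccf (hh f hf) n) := by
  have hLg := lg_bb _ (uh hf)
  refine ⟨hLg.b0, hLg.b1, bb_le hf, fun n => ?_, ?_⟩
  · rw [norm_mul, Complex.norm_real, Real.norm_of_nonneg ArithmeticFunction.vonMangoldt_nonneg,
      mul_comm]
    exact mul_le_mul_of_nonneg_right (hLg.cd n) ArithmeticFunction.vonMangoldt_nonneg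
  · funext n
    rw [LSeries.convolution_def]
    show bb (hh f hf) n * (Real.log n : ℂ) = ∑ p ∈ n.divisorsAntidiagonal,
      bb (hh f hf) p.1 * ((Λ p.2 : ℂ) * ccf (hh f hf) p.2)
    rcases Nat.eq_zero_or_pos n with h0 | h0
    · subst h0; simp
    rw [Nat.sum_divisorsAntidiagonal' (f := fun u d => bb (hh f hf) u *
      ((Λ d : ℂ) * ccf (hh f hf) d)), hLg.lg n h0.ne']
    refine sum_congr rfl fun d _ => ?_
    ring

theorem hs_r : Hs rN (fun n => (rN n : ℂ))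
    (fun n => (Λ n : ℂ) * ccf (hh (fun _ => (1 : ℝ)) cmr_one) n) := by
  have h := hs_f cmr_one
  have e : bb (hh (fun _ => (1 : ℝ)) cmr_one) = fun n => (rN n : ℂ) := by
    funext n
    exact bb_one n
  rwa [e] at h

theorem rm_r : ∃ ρ C : ℝ, 0 < ρ ∧ Rm rN ρ C := by
  obtain ⟨C, hC, hlat, -⟩ := Pool.Agent.W45.GA.lat (t := 0) (c := 1) hD1
  have hk : 0 < Pool.Agent.W78.GA.kap 0 1 := by
    unfold Pool.Agent.W78.GA.kap
    have h2 := Real.pi_pos
    have h3 : (0 : ℝ) < Real.sqrt (4 * ((1 : ℤ) : ℝ) - ((0 : ℤ) : ℝ) ^ 2) := by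
      apply Real.sqrt_pos.2
      norm_num
    positivity
  obtain ⟨κ, hκ⟩ : ∃ κ : ℝ, κ = Pool.Agent.W78.GA.kap 0 1 := ⟨_, rfl⟩
  rw [← hκ] at hk hlat
  have hrN : ∀ N : ℕ, ∑ n ∈ Icc 1 N, rN n = ((ball 0 1 (N : ℝ)).card : ℝ) / 4 := by
    intro N
    have h1 := sum_norm (M := ℝ) (N : ℝ) (fun _ => 1)
    rw [Nat.floor_natCast, sum_const, nsmul_eq_mul, mul_one] at h1
    rw [h1, sum_div]
    refine sum_congr rfl fun n hn => ?_
    rw [mem_Icc] at hn
    unfold rN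
    rw [if_neg (by omega), sum_const, nsmul_eq_mul, mul_one]
  refine ⟨κ / 4, max 1 (max (κ / 4) (C / 4)), by positivity,
    ⟨rN_nonneg, by unfold rN; simp, le_max_left _ _, ?_, fun N => ?_⟩⟩
  · rw [abs_of_pos (by positivity)]
    exact (le_max_left _ _).trans (le_max_right _ _)
  · rw [hrN]
    rcases Nat.eq_zero_or_pos N with rfl | hN
    · have : ball 0 1 ((0 : ℕ) : ℝ) = ∅ := by
        rw [Finset.eq_empty_iff_forall_notMem]
        intro z hz
        rw [mem_ball hD1] at hz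
        have h2 : (nm z : ℝ) ≤ 0 := by simpa using hz.2
        have h3 : (1 : ℝ) ≤ nm z := by exact_mod_cast hz.1
        linarith
      rw [this]
      simp
    · have hn1 : (1 : ℝ) ≤ N := by exact_mod_cast hN
      have h1 := hlat N 1 0 hn1 le_rfl
      have h2 : (ball 0 1 (N : ℝ)).filter (Pool.Agent.W78.GA.lat 1 0) = ball 0 1 (N : ℝ) := by
        apply Finset.filter_true_of_mem
        intro z _
        unfold Pool.Agent.W78.GA.lat
        exact one_dvd _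
      rw [h2, Nat.cast_one, div_one] at h1
      have h3 : ((ball 0 1 (N : ℝ)).card : ℝ) / 4 - κ / 4 * N =
          (((ball 0 1 (N : ℝ)).card : ℝ) - κ * N) / 4 := by
        ring
      rw [h3, abs_div, abs_of_pos (by norm_num : (0 : ℝ) < 4), div_le_iff₀ (by norm_num)]
      refine h1.trans ?_
      have h4 : C / 4 ≤ max 1 (max (κ / 4) (C / 4)) :=
        (le_max_right _ _).trans (le_max_right _ _)
      have h5 := mul_le_mul_of_nonneg_right h4 (Real.sqrt_nonneg (N : ℝ))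
      linarith

/-! ### The trivial character is not close to `n^{iy}` -/

theorem lser_bd {F : ℕ → ℂ} {C : ℝ} (hC : 0 ≤ C) (hF : ∀ N : ℕ, ‖∑ n ∈ Icc 1 N, F n‖ ≤ C * Real.sqrt N)
    {s : ℂ} (hs : 1 < s.re) (hS : LSeriesSummable F s) : ‖LSeries F s‖ ≤ 2 * C * ‖s‖ := by
  have hO : (fun n : ℕ => ∑ k ∈ Icc 1 n, F k) =O[atTop] fun n : ℕ => (n : ℝ) ^ (1 / 2 : ℝ) := by
    refine Asymptotics.IsBigO.of_bound C (Eventually.of_forall fun n => ?_)
    rw [Real.norm_of_nonneg (by positivity), ← Real.sqrt_eq_rpow]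
    exact hF n
  rw [LSeries_eq_mul_integral F (r := 1 / 2) (by norm_num) (by linarith) hS hO, norm_mul, mul_comm]
  refine mul_le_mul_of_nonneg_right ?_ (norm_nonneg _)
  have hint : MeasureTheory.IntegrableOn (fun t : ℝ => C * t ^ (-(3 / 2) : ℝ)) (Set.Ioi 1) :=
    (integrableOn_Ioi_rpow_of_lt (by norm_num) (by norm_num)).const_mul C
  have h1 : ∫ t in Set.Ioi (1 : ℝ), C * t ^ (-(3 / 2) : ℝ) = 2 * C := by
    rw [MeasureTheory.integral_const_mul, integral_Ioi_rpow_of_lt (by norm_num) (by norm_num)]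
    norm_num
    ring
  rw [← h1]
  refine MeasureTheory.norm_integral_le_of_norm_le hint ?_
  refine (MeasureTheory.ae_restrict_iff' measurableSet_Ioi).2 (Eventually.of_forall fun t ht => ?_)
  have ht1 : (1 : ℝ) < t := ht
  have ht0 : (0 : ℝ) < t := by linarith
  rw [norm_mul, Complex.norm_cpow_eq_rpow_re_of_pos ht0]
  have h2 : ‖∑ k ∈ Icc 1 ⌊t⌋₊, F k‖ ≤ C * t ^ (1 / 2 : ℝ) := by
    refine (hF _).trans (mul_le_mul_of_nonneg_left ?_ hC)
    rw [← Real.sqrt_eq_rpow]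
    exact Real.sqrt_le_sqrt (Nat.floor_le ht0.le)
  have h3 : t ^ (-(s + 1)).re ≤ t ^ (-2 : ℝ) := by
    refine Real.rpow_le_rpow_of_exponent_le ht1.le ?_
    simp only [Complex.neg_re, Complex.add_re, Complex.one_re]
    linarith
  calc ‖∑ k ∈ Icc 1 ⌊t⌋₊, F k‖ * t ^ (-(s + 1)).re ≤ (C * t ^ (1 / 2 : ℝ)) * t ^ (-2 : ℝ) :=
        mul_le_mul h2 h3 (by positivity) (by positivity)
    _ = C * t ^ (-(3 / 2) : ℝ) := by
        rw [mul_assoc, ← Real.rpow_add ht0]
        norm_num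

theorem r_far {y : ℝ} (hy : y ≠ 0) : ¬ Summable (gg rN (fun n => (rN n : ℂ)) 0 y) := by
  obtain ⟨ρ, C, hρ, hr⟩ := rm_r
  refine hs_r.not_close hs_r hr hρ y ?_
  have hC := hr.C0
  obtain ⟨F, hF⟩ : ∃ F : ℕ → ℂ, F = fun n => (rN n : ℂ) - (ρ : ℂ) := ⟨_, rfl⟩
  have hone : ∀ {s : ℂ}, 1 < s.re → LSeriesSummable (fun _ : ℕ => (ρ : ℂ)) s := by
    intro s hs
    have h1 := (LSeriesSummable_one_iff.2 hs).smul (ρ : ℂ)
    have h2 : (ρ : ℂ) • (1 : ℕ → ℂ) = fun _ : ℕ => (ρ : ℂ) := by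
      funext n; simp
    rwa [h2] at h1
  have hFs : ∀ {s : ℂ}, 1 < s.re → LSeriesSummable F s := by
    intro s hs
    rw [hF]
    exact (hr.summ hs).sub (hone hs)
  have hFb : ∀ N : ℕ, ‖∑ n ∈ Icc 1 N, F n‖ ≤ C * Real.sqrt N := by
    intro N
    have h1 : ∑ n ∈ Icc 1 N, F n = ((∑ n ∈ Icc 1 N, rN n - ρ * N : ℝ) : ℂ) := by
      rw [hF]
      simp only
      rw [sum_sub_distrib, sum_const, Nat.card_Icc, nsmul_eq_mul]
      push_cast
      simp
      ring
    rw [h1, Complex.norm_real]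
    exact hr.cnt N
  have heq : ∀ {s : ℂ}, 1 < s.re → LSeries (fun n => (rN n : ℂ)) s =
      LSeries F s + (ρ : ℂ) * riemannZeta s := by
    intro s hs
    have h1 : (fun n => (rN n : ℂ)) = F + fun _ : ℕ => (ρ : ℂ) := by
      rw [hF]
      funext n
      simp
    rw [h1, LSeries_add (hFs hs) (hone hs)]
    congr 1
    have h2 : (fun _ : ℕ => (ρ : ℂ)) = (ρ : ℂ) • (1 : ℕ → ℂ) := by
      funext n; simp
    rw [h2, LSeries_smul, LSeries_one_eq_riemannZeta hs]
  -- the limit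
  have hz : ContinuousAt riemannZeta (1 + y * Complex.I) := by
    refine (differentiableAt_riemannZeta ?_).continuousAt
    intro h
    have h1 := congrArg Complex.im h
    simp at h1
    exact hy h1
  have h1 := lim_of_cont (g := riemannZeta) (A := riemannZeta) (y := y) hz (fun δ _ => rfl)
  have h2 : Tendsto (fun δ : ℝ => δ * (2 * C * ‖pt δ y‖)) (𝓝[>] 0) (𝓝 0) := by
    have h3 : Continuous (fun δ : ℝ => δ * (2 * C * ‖pt δ y‖)) := by
      unfold pt
      fun_prop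
    have h4 := h3.tendsto 0
    rw [zero_mul] at h4
    exact h4.mono_left nhdsWithin_le_nhds
  have h5 := h2.add (h1.const_mul ρ)
  rw [mul_zero, add_zero] at h5
  refine squeeze_zero' ?_ ?_ h5
  · filter_upwards [self_mem_nhdsWithin] with δ hδ
    have : (0 : ℝ) < δ := hδ
    positivity
  · filter_upwards [self_mem_nhdsWithin] with δ hδ
    have hδ0 : (0 : ℝ) < δ := hδ
    have hs : 1 < (pt δ y).re := by rw [pt_re]; linarith
    rw [heq hs]
    have h6 := lser_bd hC.le hFb hs (hFs hs)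
    calc δ * ‖LSeries F (pt δ y) + (ρ : ℂ) * riemannZeta (pt δ y)‖
        ≤ δ * (‖LSeries F (pt δ y)‖ + ‖(ρ : ℂ) * riemannZeta (pt δ y)‖) :=
          mul_le_mul_of_nonneg_left (norm_add_le _ _) hδ0.le
      _ ≤ δ * (2 * C * ‖pt δ y‖ + ρ * ‖riemannZeta (pt δ y)‖) := by
          rw [norm_mul, Complex.norm_real, Real.norm_of_nonneg hρ.le]
          exact mul_le_mul_of_nonneg_left (add_le_add_left h6 _) hδ0.le
      _ = δ * (2 * C * ‖pt δ y‖) + ρ * (δ * ‖riemannZeta (pt δ y)‖) := by ring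

end Pool.Agent.N80.MS
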