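import Pool.Agent.N80.MS.HalA

/-!
# Project MS (helper912), MS13, part B: the other functions have mean value zero
-/

set_option autoImplicit false

namespace Pool.Agent.N80.MS

open Finset Filter Topology
open Pool.Agent.W78.GA (Qd nm ball mem_ball nm_mul nm_cast one_le_nm nm_zero nm_eq_zero
  mul_star_self' star_mul_self' nm_natCast nm_star)
open Pool.Agent.N912.MS
open Pool.Agent.N912.HL
open Pool.Agent.H304R3.HK (bb CS UH Lg ccf lg_bb)
open scoped ArithmeticFunction.vonMangoldt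

/-- the deficit as a sum over the elements of norm `p` -/
theorem gg_f {f : Gi → ℝ} (hf : CMR f) (y : ℝ) {p : ℕ} (hp : p.Prime) :
    gg rN (bb (hh f hf)) 0 y p = (p : ℝ) ^ (-(1 : ℝ)) *
      ((∑ q ∈ CS p, (1 - f ⟨q.1, q.2⟩ * ((p : ℂ) ^ (-(y * Complex.I))).re)) / 4) := by
  unfold gg
  rw [if_pos hp, add_zero]
  congr 1
  rw [bb_eq hf hp.ne_zero, Complex.re_ofReal_mul, sum_sub_distrib, sum_const, nsmul_eq_mul,
    mul_one, sub_div, ← sum_mul]
  unfold rN
  rw [if_neg hp.ne_zero]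
  ring

theorem sq_cpow {p : ℕ} (y : ℝ) : (p : ℂ) ^ (-(((2 * y : ℝ) : ℂ) * Complex.I)) =
    ((p : ℂ) ^ (-(y * Complex.I))) ^ 2 := by
  rw [← Complex.cpow_nat_mul]
  congr 1
  push_cast
  ring

theorem sum_le_of_ne {s t : Finset Gi} {g : Gi → ℝ} (hg : ∀ z, 0 ≤ g z)
    (h : ∀ z ∈ s, g z ≠ 0 → z ∈ t) : ∑ z ∈ s, g z ≤ ∑ z ∈ t, g z := by
  classical
  rw [← sum_filter_ne_zero s]
  refine sum_le_sum_of_subset_of_nonneg (fun z hz => ?_) (fun z _ _ => hg z)
  rw [mem_filter] at hz
  exact h z hz.1 hz.2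

/-- the comparison for `y ≠ 0` -/
theorem gg_two {f : Gi → ℝ} (hf : CMR f) (y : ℝ) (n : ℕ) :
    gg rN (fun n => (rN n : ℂ)) 0 (2 * y) n ≤ 4 * gg rN (bb (hh f hf)) 0 y n := by
  by_cases hp : n.Prime
  · have e : (fun n => (rN n : ℂ)) = bb (hh (fun _ => (1 : ℝ)) cmr_one) := by
      funext n
      exact (bb_one n).symm
    rw [e, gg_f cmr_one _ hp, gg_f hf _ hp, sq_cpow]
    obtain ⟨u, hu⟩ : ∃ u : ℂ, u = (n : ℂ) ^ (-(y * Complex.I)) := ⟨_, rfl⟩
    have hu1 : ‖u‖ = 1 := by rw [hu]; exact norm_u hp.pos y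
    rw [← hu]
    have h1 : u.re * u.re + u.im * u.im = 1 := by
      have := Complex.normSq_eq_norm_sq u
      rw [Complex.normSq_apply, hu1] at this
      linarith
    have h2 : (u ^ 2).re = 2 * u.re ^ 2 - 1 := by
      rw [pow_two, Complex.mul_re]
      linarith
    rw [h2]
    have h0 : (0 : ℝ) ≤ (n : ℝ) ^ (-(1 : ℝ)) := by positivity
    have h3 : ∑ q ∈ CS n, (1 - (1 : ℝ) * (2 * u.re ^ 2 - 1)) ≤
        4 * ∑ q ∈ CS n, (1 - f ⟨q.1, q.2⟩ * u.re) := by
      rw [mul_sum]
      refine sum_le_sum fun q _ => ?_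
      have h4 := abs_le.1 (hf.bd ⟨q.1, q.2⟩)
      have h5 : f ⟨q.1, q.2⟩ ^ 2 ≤ 1 := by nlinarith
      nlinarith [sq_nonneg (f ⟨q.1, q.2⟩ - u.re)]
    calc (n : ℝ) ^ (-(1 : ℝ)) * ((∑ q ∈ CS n, (1 - (1 : ℝ) * (2 * u.re ^ 2 - 1))) / 4)
        ≤ (n : ℝ) ^ (-(1 : ℝ)) * ((4 * ∑ q ∈ CS n, (1 - f ⟨q.1, q.2⟩ * u.re)) / 4) :=
          mul_le_mul_of_nonneg_left (div_le_div_of_nonneg_right h3 (by norm_num)) h0
      _ = _ := by ring
  · unfold gg
    rw [if_neg hp, if_neg hp]
    simp

/-! ### Primes -/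

theorem isUnit_iff {z : Gi} : IsUnit z ↔ nm z = 1 := by
  constructor
  · intro h
    obtain ⟨w, hw⟩ := h.exists_right_inv
    have h1 := congrArg nm hw
    rw [nm_mul] at h1
    have h2 : nm (1 : Gi) = 1 := Pool.Agent.W78.GA.nm_one
    rw [h2] at h1
    exact Nat.eq_one_of_mul_eq_one_right h1
  · intro h
    refine IsUnit.of_mul_eq_one (star z) ?_
    rw [mul_star_self' hD1, h, Nat.cast_one]

theorem nm_prime_ge {z : Gi} (hz : Prime z) : 2 ≤ nm z := by
  have h0 : nm z ≠ 0 := fun h => hz.ne_zero ((nm_eq_zero hD1).1 h)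
  have h1 : nm z ≠ 1 := fun h => hz.not_isUnit (isUnit_iff.2 h)
  omega

/-- prime elements lie above rational primes -/
theorem prime_above {z : Gi} (hπ : Prime z) :
    ∃ p : ℕ, p.Prime ∧ z ∣ (p : Gi) := by
  have h1 : z ∣ ((nm z : ℕ) : Gi) := by
    rw [← mul_star_self' hD1]
    exact dvd_mul_right _ _
  have key : ∀ n : ℕ, n ≠ 0 → z ∣ (n : Gi) → ∃ p : ℕ, p.Prime ∧ z ∣ (p : Gi) := by
    intro n
    induction n using Nat.recOnMul with
    | zero => intro h; exact absurd rfl h
    | one =>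
      intro _ h
      rw [Nat.cast_one] at h
      exact absurd (isUnit_of_dvd_one h) hπ.not_isUnit
    | prime p hp => intro _ h; exact ⟨p, hp, h⟩
    | mul a b iha ihb =>
      intro h0 h
      rw [Nat.cast_mul] at h
      rcases hπ.dvd_or_dvd h with h | h
      · exact iha (fun h' => h0 (by rw [h', zero_mul])) h
      · exact ihb (fun h' => h0 (by rw [h', mul_zero])) h
  exact key (nm z) (by have := nm_prime_ge hπ; omega) h1

/-- the primes of the first quadrant whose norm is not a prime are rational -/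
theorem inert {z : Gi} (hz : Pr1 z) (hn : ¬ (nm z).Prime) : z.im = 0 := by
  obtain ⟨hπ, hre, him⟩ := hz
  obtain ⟨p, hp, w, hw⟩ := prime_above hπ
  have h2 := congrArg nm hw
  rw [nm_mul, nm_natCast] at h2
  have h3 : nm z ∣ p ^ 2 := ⟨nm w, h2⟩
  obtain ⟨i, hi, h4⟩ := (Nat.dvd_prime_pow hp).1 h3
  have h5 := nm_prime_ge hπ
  have h6 : i = 2 := by
    interval_cases i
    · rw [pow_zero] at h4; omega
    · rw [pow_one] at h4; exact absurd (h4 ▸ hp) hn
    · rfl
  rw [h6] at h4
  rw [h4] at h2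
  have hp0 : 0 < p ^ 2 := pow_pos hp.pos 2
  have h7 : nm w = 1 := by
    have : p ^ 2 * nm w = p ^ 2 * 1 := by rw [← h2, mul_one]
    exact Nat.eq_of_mul_eq_mul_left hp0 this
  have h8 := nm_eq w
  rw [h7] at h8
  have hR := congrArg QuadraticAlgebra.re hw
  have hI := congrArg QuadraticAlgebra.im hw
  simp only [QuadraticAlgebra.re_mul, QuadraticAlgebra.im_mul, QuadraticAlgebra.re_natCast,
    QuadraticAlgebra.im_natCast] at hR hI
  -- `p = x a - y b`, `0 = x b + y a`, `a² + b² = 1`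
  have h9 : z.im * (w.re ^ 2 + w.im ^ 2) = -(p : ℤ) * w.im := by
    linear_combination w.im * hR - w.re * hI
  have h10 : z.re * (w.re ^ 2 + w.im ^ 2) = (p : ℤ) * w.re := by
    linear_combination (-w.re) * hR - w.im * hI
  have h11 : w.re ^ 2 + w.im ^ 2 = 1 := by rw [← h8]; norm_num
  rw [h11, mul_one] at h9 h10
  have h12 : w.re ≠ 0 := by
    intro h
    rw [h, mul_zero] at h10
    omega
  have h13 : w.im = 0 := by
    have h14 : 1 ≤ w.re ^ 2 := by
      have := sq_pos_of_ne_zero h12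
      omega
    have h15 : w.im ^ 2 = 0 := by
      have := sq_nonneg w.im
      omega
    exact pow_eq_zero_iff (two_ne_zero) |>.1 h15
  rw [h9, h13, mul_zero]

open scoped Classical in
/-- the terms of the series over the primes -/
noncomputable def tf (f : Gi → ℝ) (z : Gi) : ℝ := if Pr1 z then (1 - f z) / (nm z : ℝ) else 0

theorem tf_nonneg {f : Gi → ℝ} (hf : CMR f) (z : Gi) : 0 ≤ tf f z := by
  unfold tf
  split_ifs
  · have := (abs_le.1 (hf.bd z)).2
    exact div_nonneg (by linarith) (Nat.cast_nonneg _)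
  · exact le_rfl

open scoped Classical in
/-- `y = 0` -/
theorem pret_of {f : Gi → ℝ} (hf : CMR f) (hs : Summable (gg rN (bb (hh f hf)) 0 0)) :
    Pret f := by
  have hgg : ∀ n, 0 ≤ gg rN (bb (hh f hf)) 0 0 n := fun n => gg_nonneg (bb_le hf) _ _ n
  have h1 : Summable (fun z : Gi => if (nm z).Prime then tf f z else 0) := by
    refine summable_of_sum_le (c := 4 * ∑' n, gg rN (bb (hh f hf)) 0 0 n) (fun z => ?_) fun u => ?_
    · beta_reduce
      split_ifs
      · exact tf_nonneg hf z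
      · exact le_rfl
    · obtain ⟨N, hN⟩ : ∃ N : ℕ, ∀ z ∈ u, nm z ≤ N := ⟨u.sup nm, fun z hz => le_sup hz⟩
      have h2 : ∑ z ∈ u, (if (nm z).Prime then tf f z else 0) ≤
          ∑ z ∈ ball 0 1 (N : ℝ), (if (nm z).Prime then tf f z else 0) := by
        refine sum_le_of_ne (fun z => ?_) fun z hz h3 => ?_
        · split_ifs
          · exact tf_nonneg hf z
          · exact le_rfl
        rw [mem_ball hD1]
        refine ⟨?_, by exact_mod_cast hN z hz⟩
        by_contra h4
        apply h3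
        rw [if_neg]
        intro h5
        have := h5.pos
        omega
      refine h2.trans ?_
      rw [sum_norm, Nat.floor_natCast]
      have h3 : ∀ n ∈ Icc 1 N, ∑ q ∈ CS n,
          (if (nm (⟨q.1, q.2⟩ : Gi)).Prime then tf f ⟨q.1, q.2⟩ else 0) ≤
          4 * gg rN (bb (hh f hf)) 0 0 n := by
        intro n _
        by_cases hp : n.Prime
        · rw [gg_f hf _ hp]
          have h4 : ∑ q ∈ CS n,
              (if (nm (⟨q.1, q.2⟩ : Gi)).Prime then tf f ⟨q.1, q.2⟩ else 0) ≤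
              ∑ q ∈ CS n, (1 - f ⟨q.1, q.2⟩) / n := by
            refine sum_le_sum fun q hq => ?_
            rw [nm_mk hq, if_pos hp]
            unfold tf
            rw [nm_mk hq]
            split_ifs
            · exact le_rfl
            · have := (abs_le.1 (hf.bd ⟨q.1, q.2⟩)).2
              exact div_nonneg (by linarith) (Nat.cast_nonneg _)
          refine h4.trans (le_of_eq ?_)
          rw [← sum_div, Real.rpow_neg_one]
          simp only [Complex.ofReal_zero, zero_mul, neg_zero, Complex.cpow_zero, Complex.one_re,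
            mul_one]
          field_simp
        · refine le_trans (le_of_eq ?_) (mul_nonneg (by norm_num) (hgg n))
          refine sum_eq_zero fun q hq => ?_
          rw [nm_mk hq, if_neg hp]
      refine (sum_le_sum h3).trans ?_
      rw [← mul_sum]
      exact mul_le_mul_of_nonneg_left (hs.sum_le_tsum _ fun n _ => hgg n) (by norm_num)
  have h2 : Summable (fun z : Gi => if (nm z).Prime then 0 else tf f z) := by
    have hinj : Function.Injective (fun n : ℕ => (⟨(n : ℤ), 0⟩ : Gi)) := by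
      intro a b h
      have h3 : (a : ℤ) = b := congrArg QuadraticAlgebra.re h
      exact_mod_cast h3
    rw [← hinj.summable_iff]
    · have h3 : Summable (fun n : ℕ => 2 * (1 / (n : ℝ) ^ 2)) :=
        (Real.summable_one_div_nat_pow.2 (by norm_num)).mul_left 2
      refine Summable.of_nonneg_of_le (fun n => ?_) (fun n => ?_) h3
      · simp only [Function.comp_apply]
        split_ifs
        · exact le_rfl
        · exact tf_nonneg hf _
      · simp only [Function.comp_apply]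
        have h4 : (0 : ℝ) ≤ 2 * (1 / (n : ℝ) ^ 2) := by positivity
        split_ifs
        · exact h4
        · unfold tf
          split_ifs
          · have h5 : nm (⟨(n : ℤ), 0⟩ : Gi) = n ^ 2 := by
              have h6 := nm_eq (⟨(n : ℤ), 0⟩ : Gi)
              simp only at h6
              have h7 : (nm (⟨(n : ℤ), 0⟩ : Gi) : ℤ) = ((n ^ 2 : ℕ) : ℤ) := by
                rw [h6]; push_cast; ring
              exact_mod_cast h7
            rw [h5]
            push_cast
            rw [mul_one_div]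
            refine div_le_div_of_nonneg_right ?_ (by positivity)
            have := (abs_le.1 (hf.bd ⟨(n : ℤ), 0⟩)).1
            linarith
          · exact h4
    · intro z hz
      split_ifs with h3
      · rfl
      · unfold tf
        rw [if_neg]
        intro h4
        apply hz
        refine ⟨z.re.toNat, ?_⟩
        have h5 := inert h4 h3
        apply QuadraticAlgebra.ext
        · exact Int.toNat_of_nonneg h4.2.1.le
        · exact h5.symm
  unfold Pret
  refine (h1.add h2).congr fun z => ?_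
  have h3 : (if Pr1 z then (1 - f z) / (nm z : ℝ) else 0) = tf f z := rfl
  rw [h3]
  split_ifs
  · rw [add_zero]
  · rw [zero_add]

theorem np_f {f : Gi → ℝ} (hf : CMR f) (h : ¬ Pret f) : NP rN (bb (hh f hf)) := by
  intro y hs
  by_cases hy : y = 0
  · rw [hy] at hs
    exact h (pret_of hf hs)
  · refine r_far (y := 2 * y) (mul_ne_zero two_ne_zero hy) ?_
    refine Summable.of_nonneg_of_le (fun n => gg_nonneg (fun n => ?_) _ _ n) (gg_two hf y)
      (hs.mul_left 4)
    rw [Complex.norm_real, Real.norm_of_nonneg (rN_nonneg n)]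

/-- **mean value zero** -/
theorem mz_f {f : Gi → ℝ} (hf : CMR f) (h : ¬ Pret f) : MZ f := by
  obtain ⟨ρ, C, hρ, hr⟩ := rm_r
  have key := (hs_f hf).halasz hs_r hr (np_f hf h)
  intro ε hε
  have e1 := key.eventually (Metric.ball_mem_nhds 0 (show (0 : ℝ) < ε / 4 by positivity))
  obtain ⟨N₁, hN₁⟩ := Filter.eventually_atTop.1 e1
  refine ⟨(N₁ : ℝ) + 1, fun X hX => ?_⟩
  have hX1 : (1 : ℝ) ≤ X := by linarith [(Nat.cast_nonneg N₁ : (0 : ℝ) ≤ N₁)]
  have hfl : N₁ ≤ ⌊X⌋₊ := Nat.le_floor (by linarith)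
  have hfl1 : 1 ≤ ⌊X⌋₊ := Nat.le_floor (by exact_mod_cast hX1)
  have hfl0 : (0 : ℝ) < (⌊X⌋₊ : ℝ) := by exact_mod_cast hfl1
  have h3 := hN₁ ⌊X⌋₊ hfl
  rw [dist_zero_right, norm_div, Complex.norm_natCast, div_lt_iff₀ hfl0] at h3
  have h4 : ∑ n ∈ Icc 1 ⌊X⌋₊, bb (hh f hf) n =
      (((∑ z ∈ ball 0 1 X, f z) / 4 : ℝ) : ℂ) := by
    rw [sum_norm, sum_div, Complex.ofReal_sum]
    refine sum_congr rfl fun n hn => ?_
    rw [mem_Icc] at hn
    exact bb_eq hf (by omega)
  rw [h4, Complex.norm_real, Real.norm_eq_abs, abs_div, abs_of_pos (by norm_num : (0 : ℝ) < 4)] at h3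
  have h5 := Nat.floor_le (show (0 : ℝ) ≤ X by linarith)
  have h6 : |∑ z ∈ ball 0 1 X, f z| ≤ ε * (⌊X⌋₊ : ℝ) := by linarith
  exact h6.trans (mul_le_mul_of_nonneg_left h5 hε.le)

open scoped Classical in
/-- the product is zero -/
theorem pp_f {f : Gi → ℝ} (hf : CMR f) (h : ¬ Pret f) : Tendsto (PP2 f) atTop (nhds 0) := by
  have htf : ¬ Summable (tf f) := h
  have h1 : Tendsto (fun x : ℕ => ∑ z ∈ (ball 0 1 (x : ℝ)).filter Pr1, tf f z) atTop atTop := by
    rw [tendsto_atTop]
    intro b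
    obtain ⟨u, hu⟩ : ∃ u : Finset Gi, b < ∑ z ∈ u, tf f z := by
      by_contra hcon
      push Not at hcon
      exact htf (summable_of_sum_le (fun z => tf_nonneg hf z) hcon)
    filter_upwards [eventually_ge_atTop (u.sup nm)] with x hx
    refine hu.le.trans (sum_le_of_ne (tf_nonneg hf) fun z hz h3 => ?_)
    have h4 : Pr1 z := by
      by_contra h5
      apply h3
      unfold tf
      rw [if_neg h5]
    rw [mem_filter, mem_ball hD1]
    have h5 := nm_prime_ge h4.1
    refine ⟨⟨by omega, ?_⟩, h4⟩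
    exact_mod_cast (le_sup (f := nm) hz).trans hx
  have h2 : Tendsto (fun x : ℕ => Real.exp (-(1 / 2 * ∑ z ∈ (ball 0 1 (x : ℝ)).filter Pr1, tf f z)))
      atTop (nhds 0) :=
    Real.tendsto_exp_atBot.comp (tendsto_neg_atTop_atBot.comp (h1.const_mul_atTop (by norm_num)))
  have hfac : ∀ z : Gi, Pr1 z → 0 ≤ ((nm z : ℝ) - 1) / ((nm z : ℝ) - f z) ∧
      ((nm z : ℝ) - 1) / ((nm z : ℝ) - f z) ≤ Real.exp (-(1 / 2 * tf f z)) := by
    intro z hz
    have h3 : (2 : ℝ) ≤ nm z := by exact_mod_cast nm_prime_ge hz.1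
    obtain ⟨h4, h5⟩ := abs_le.1 (hf.bd z)
    have h6 : 0 < (nm z : ℝ) - f z := by linarith
    refine ⟨div_nonneg (by linarith) h6.le, ?_⟩
    have h7 : ((nm z : ℝ) - 1) / ((nm z : ℝ) - f z) = 1 - (1 - f z) / ((nm z : ℝ) - f z) := by
      field_simp
      ring
    have h8 : 1 / 2 * tf f z ≤ (1 - f z) / ((nm z : ℝ) - f z) := by
      unfold tf
      rw [if_pos hz]
      have h9 : 1 / 2 * ((1 - f z) / (nm z : ℝ)) = (1 - f z) / (2 * (nm z : ℝ)) := by
        field_simp
      rw [h9]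
      exact div_le_div_of_nonneg_left (by linarith) h6 (by linarith)
    have h10 := Real.add_one_le_exp (-(1 / 2 * tf f z))
    rw [h7]
    linarith
  refine squeeze_zero (fun x => ?_) (fun x => ?_) h2
  · unfold PP2
    exact prod_nonneg fun z hz => (hfac z (mem_filter.1 hz).2).1
  · unfold PP2
    refine (prod_le_prod (fun z hz => (hfac z (mem_filter.1 hz).2).1)
      (fun z hz => (hfac z (mem_filter.1 hz).2).2)).trans (le_of_eq ?_)
    rw [← Real.exp_sum, mul_sum, ← sum_neg_distrib]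

/-- **MS13** -/
theorem hal2 : S_HAL2 := fun _ hf h => ⟨pp_f hf h, mz_f hf h⟩

end Pool.Agent.N80.MS
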